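import Mathlib
import Pool.Agent.TH588.KG.Sparse
import Pool.Agent.TH705.LB.Lower

set_option autoImplicit false

namespace Pool.Agent.Results.MP_0036f5_lc.BoundedGuesses

open Pool.Agent.H630R2.LA Filter Relation
open Pool.Agent.TH588.KG (After AllBut)

/-- The function `rk` on the states of `M` is a *ranking*: no move lowers the rank, and as long as
`M` does not raise the rank, it has no choice what to write.  That is: if two computations on the
same input `w` are going to visit the same cell, which contains a letter of `w`, for the first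
time, with the same tape and in states of the same rank, then all their moves that keep the rank
write the same symbol. -/
structure Ranking {A : Type} (strict : Prop) (M : LimAut A) (rk : M.Q → ℕ) : Prop where
  mono : ∀ p σ q b d, (q, b, d) ∈ M.δ p σ → rk p ≤ rk q
  nochoice : ∀ (w : List A) (c c' : Cfg M),
    ReflTransGen (Step strict w.length) (init M w) c →
    ReflTransGen (Step strict w.length) (init M w) c' →
    1 ≤ c.pos → c.pos ≤ w.length → c'.pos = c.pos → c.pos ∉ c.seen → c'.pos ∉ c'.seen →
    c'.tape = c.tape → rk c'.state = rk c.state →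
    ∀ q b d q' b' d', (q, b, d) ∈ M.δ c.state (c.tape c.pos) →
      (q', b', d') ∈ M.δ c'.state (c.tape c.pos) → rk q = rk c.state → rk q' = rk c.state → b = b'

/-- `M` has a ranking with ranks at most `k`; so every computation makes at most `k` moves in which
it has a choice what to write. -/
def Ranked {A : Type} (strict : Prop) (k : ℕ) (M : LimAut A) : Prop :=
  ∃ rk : M.Q → ℕ, (∀ q, rk q ≤ k) ∧ Ranking strict M rk

/-- The set of the values `detSize L(M)`, for the `M` of size at most `n` that satisfy
`Ranked strict k M`. -/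
def costsK (strict : Prop) (k n : ℕ) : Set ℕ :=
  {s | ∃ (A : Type) (_ : Finite A) (M : LimAut A), Ranked strict k M ∧ M.size ≤ n ∧
    s = detSize strict (M.language strict)}

/-- The cost function `D_k(n)`: the maximum of the values in `costsK strict k n`. -/
noncomputable def DK (strict : Prop) (k n : ℕ) : ℕ := sSup (costsK strict k n)

/-- The states of `M` are divided into classes; `κ q` is the class of the state `q`.
`nochoice`: as long as `M` stays in a class, it has no choice what to write.  That is: if two
computations on the same input `w` are going to visit the same cell, which contains a letter of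
`w`, for the first time, with the same tape and in states of the same class, then all their moves
that keep the class write the same symbol.
`few`: every word of the language has an accepting computation in which at most `k` moves change
the class (`After strict κ w k c`: some computation on `w` reaches `c`, and at most `k` of its
moves change the class of the state). -/
structure Guesses {A : Type} (strict : Prop) (k : ℕ) (M : LimAut A) (κ : M.Q → ℕ) : Prop where
  nochoice : ∀ (w : List A) (c c' : Cfg M),
    ReflTransGen (Step strict w.length) (init M w) c →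
    ReflTransGen (Step strict w.length) (init M w) c' →
    1 ≤ c.pos → c.pos ≤ w.length → c'.pos = c.pos → c.pos ∉ c.seen → c'.pos ∉ c'.seen →
    c'.tape = c.tape → κ c'.state = κ c.state →
    ∀ q b d q' b' d', (q, b, d) ∈ M.δ c.state (c.tape c.pos) →
      (q', b', d') ∈ M.δ c'.state (c.tape c.pos) → κ q = κ c.state → κ q' = κ c.state → b = b'
  few : ∀ w ∈ M.language strict, ∃ c : Cfg M, After strict κ w k c ∧ c.pos = w.length + 2 ∧
    c.state ∈ M.F

/-- `M` makes at most `k` guesses: it leaves, at most `k` times in some accepting computation on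
every word of its language, the classes of a partition of its states in which it has no choice what
to write. -/
def FewGuesses {A : Type} (strict : Prop) (k : ℕ) (M : LimAut A) : Prop :=
  ∃ κ : M.Q → ℕ, Guesses strict k M κ

/-- `M` is `k`-marking: for some function `g` from the input letters to the work symbols, every
word of the language has an accepting computation at the end of which all but at most `k` of the
cells of the input contain the symbol that `g` gives for the input letter. -/
def KMarking {A : Type} (strict : Prop) (k : ℕ) (M : LimAut A) : Prop :=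
  ∃ g : A → M.W, ∀ w ∈ M.language strict, ∃ c : Cfg M,
    ReflTransGen (Step strict w.length) (init M w) c ∧ c.pos = w.length + 2 ∧ c.state ∈ M.F ∧
      AllBut M g k w c.tape

/-- The set of the values `detSize L(M)`, for the `M` of size at most `n` that make at most `k`
guesses or are `k`-marking. -/
def costsE (strict : Prop) (k n : ℕ) : Set ℕ :=
  {s | ∃ (A : Type) (_ : Finite A) (M : LimAut A), (FewGuesses strict k M ∨ KMarking strict k M) ∧
    M.size ≤ n ∧ s = detSize strict (M.language strict)}

/-- The cost function `E_k(n)`: the maximum of the values in `costsE strict k n`. -/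
noncomputable def EK (strict : Prop) (k n : ℕ) : ℕ := sSup (costsE strict k n)

/-- If a move that scans an input letter `a` and keeps the class `j` writes a symbol `g j a` which
is determined by `j` and `a`, then there is no choice what to write in a class. -/
theorem nochoice_of_letter {A : Type} (strict : Prop) (M : LimAut A) (κ : M.Q → ℕ)
    (g : ℕ → A → M.W)
    (hg : ∀ p a q b d, (q, b, d) ∈ M.δ p (.sym (M.inp a)) → κ q = κ p → b = g (κ p) a) :
    Pool.Agent.TH588.KG.NoChoice strict M κ := by
  intro w c c' h1 h2 h3 h4 h5 h6 h7 h8 h9 q b d q' b' d' h10 h11 h12 h13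
  obtain ⟨m, hm', hseen, htape, -⟩ := forward w c h1
  have hlt : m < c.pos := by
    by_contra hcon
    exact h6 ((hseen c.pos h3).2 (by omega))
  obtain ⟨i, hi⟩ : ∃ i, c.pos = i + 1 := ⟨c.pos - 1, by omega⟩
  have hcell : c.tape c.pos = .sym (M.inp w[i]) := by
    rw [htape c.pos hlt, hi]
    simp only [initTape, List.getElem?_eq_getElem (show i < w.length by omega)]
  rw [hcell] at h10 h11
  rw [hg _ _ _ _ _ h10 h12, hg _ _ _ _ _ h11 (h13.trans h9.symm), h9]

/-- A criterion for rankings: a move that scans an input letter `a` and keeps the rank `j` writes a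
symbol `g j a` which is determined by `j` and `a`. -/
theorem ranked_of_letter {A : Type} (strict : Prop) (k : ℕ) (M : LimAut A) (rk : M.Q → ℕ)
    (g : ℕ → A → M.W) (hk : ∀ q, rk q ≤ k)
    (hm : ∀ p σ q b d, (q, b, d) ∈ M.δ p σ → rk p ≤ rk q)
    (hg : ∀ p a q b d, (q, b, d) ∈ M.δ p (.sym (M.inp a)) → rk q = rk p → b = g (rk p) a) :
    Ranked strict k M := by
  exact ⟨rk, hk, hm, nochoice_of_letter strict M rk g hg⟩

theorem seen_mono {A : Type} {strict : Prop} {M : LimAut A} {n : ℕ} {c c' : Cfg M}
    (h : ReflTransGen (Step strict n) c c') : c.seen ⊆ c'.seen := by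
  induction h with
  | refl => exact subset_rfl
  | tail _ hs ih =>
    obtain ⟨_, q, b, d, _, _, _, _, _, hs', _⟩ := hs
    rw [hs']
    exact ih.trans (Set.subset_insert _ _)

theorem eq_of_first {A : Type} {strict : Prop} {M : LimAut A} {n : ℕ} {c c' : Cfg M}
    (h : ReflTransGen (Step strict n) c c') (hp : c'.pos = c.pos) (hs : c'.pos ∉ c'.seen) :
    c = c' := by
  rcases ReflTransGen.cases_head h with h1 | ⟨c'', h1, h2⟩
  · exact h1
  · exfalso
    apply hs
    apply seen_mono h2
    obtain ⟨_, q, b, d, _, _, _, _, _, hs', _⟩ := h1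
    rw [hs', hp]
    exact Set.mem_insert _ _

/-- Deterministic machines have a ranking with one rank. -/
theorem ranked_of_deterministic {A : Type} (strict : Prop) (M : LimAut A)
    (hd : M.Deterministic) : Ranked strict 0 M := by
  refine ⟨fun _ => 0, fun _ => le_rfl, fun _ _ _ _ _ _ => le_rfl, ?_⟩
  intro w c c' h1 h2 h3 h4 h5 h6 h7 h8 h9 q b d q' b' d' h10 h11 h12 h13
  have hru : Relator.RightUnique (Step strict (M := M) w.length) :=
    fun _ _ _ h1 h2 => Step.unique hd h1 h2
  have he : c = c' := by
    rcases ReflTransGen.total_of_right_unique hru h1 h2 with h | h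
    · exact eq_of_first h h5 h7
    · exact (eq_of_first h h5.symm h6).symm
  subst he
  have := hd _ _ h10 h11
  simp only [Prod.mk.injEq] at this
  exact this.2.1

theorem upper_ranked {A : Type} [Finite A] (strict : Prop) (k : ℕ) (M : LimAut A)
    (hM : Ranked strict k M) : ∃ M' : LimAut A, M'.Deterministic ∧
      M'.language strict = M.language strict ∧
      M'.size ≤ 2 ^ (9 * (Nat.clog 2 (min k M.size + 1) + 1) * M.size ^ 2) := by
  obtain ⟨rk, h1, h2, h3⟩ := hM
  exact Pool.Agent.TH588.KG.upper_k M strict k rk h1 h2 h3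

theorem costs_le (strict : Prop) (k n : ℕ) (s : ℕ) (hs : s ∈ costsK strict k n) :
    s ≤ 2 ^ (9 * (Nat.clog 2 (min k n + 1) + 1) * n ^ 2) := by
  obtain ⟨A, hA, M, hM, hn, rfl⟩ := hs
  obtain ⟨M', h1, h2, h3⟩ := upper_ranked strict k M hM
  have h4 : detSize strict (M.language strict) ≤ M'.size := Nat.sInf_le ⟨M', h1, h2, rfl⟩
  refine (h4.trans h3).trans ?_
  apply Nat.pow_le_pow_right (by omega)
  have h5 : Nat.clog 2 (min k M.size + 1) ≤ Nat.clog 2 (min k n + 1) :=
    Nat.clog_mono_right 2 (by omega)
  exact Nat.mul_le_mul (Nat.mul_le_mul_left _ (by omega)) (Nat.pow_le_pow_left hn 2)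

theorem DK_le (strict : Prop) (k n : ℕ) :
    DK strict k n ≤ 2 ^ (9 * (Nat.clog 2 (min k n + 1) + 1) * n ^ 2) := by
  unfold DK
  rcases Set.eq_empty_or_nonempty (costsK strict k n) with h | h
  · rw [h]
    simp
  · exact csSup_le h (costs_le strict k n)

/-- The witness of `QuadraticExponent` has a choice what to write in one move only. -/
theorem ranked_witM (strict : Prop) (m k : ℕ) (hk : 1 ≤ k) :
    Ranked strict k (Pool.Agent.TH705.LB.witM m) := by
  refine ranked_of_letter strict k _ (fun q => match q.1 with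
    | .A => 0
    | _ => 1) (fun _ l => .vis l) ?_ ?_ ?_
  · rintro ⟨t, i⟩
    cases t <;> simp only <;> omega
  · rintro ⟨t, i⟩ σ ⟨t', i'⟩ b d h
    have h' : Pool.Agent.TH705.LB.Tr t i.val σ t' i'.val b d := h
    generalize hi : i.val = x at h'
    generalize hi' : i'.val = x' at h'
    cases h' <;> simp
  · rintro ⟨t, i⟩ a ⟨t', i'⟩ b d h hr
    have h' : Pool.Agent.TH705.LB.Tr t i.val (.sym (.raw a)) t' i'.val b d := h
    generalize hi : i.val = x at h'
    generalize hi' : i'.val = x' at h'
    cases h' with
    | A_mark => exact absurd hr (by simp)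
    | A_go => rfl
    | K_go => rfl
    | K_q => rfl
    | I_u => rfl
    | I_bit => rfl
    | B_u => rfl
    | B_s => rfl

theorem DK_lower (strict : Prop) (k n : ℕ) (hk : 1 ≤ k) (hn : 66500 ≤ n) :
    2 ^ (n ^ 2) ≤ DK strict k n ^ 4000000 := by
  obtain ⟨m, hm, h1, h2⟩ : ∃ m, 49 ≤ m ∧ 1330 * (m + 1) ≤ n ∧ n ≤ 1330 * (m + 2) :=
    ⟨n / 1330 - 1, by omega, by omega, by omega⟩
  have hmem : detSize strict ((Pool.Agent.TH705.LB.witM m).language strict) ∈
      costsK strict k n :=
    ⟨_, inferInstance, Pool.Agent.TH705.LB.witM m, ranked_witM strict m k hk,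
      (Pool.Agent.TH705.LB.size_witM m).trans h1, rfl⟩
  have h3 : detSize strict ((Pool.Agent.TH705.LB.witM m).language strict) ≤ DK strict k n :=
    le_csSup ⟨_, costs_le strict k n⟩ hmem
  have h4 : 2 ^ (m ^ 2) ≤
      detSize strict ((Pool.Agent.TH705.LB.witM m).language strict) ^ 2 := by
    obtain ⟨M', h1, h2, -⟩ := upper (Pool.Agent.TH705.LB.witM m) strict
    have hne : {s | ∃ M : LimAut Pool.Agent.TH705.LB.Ltr, M.Deterministic ∧
        M.language strict = (Pool.Agent.TH705.LB.witM m).language strict ∧
        M.size = s}.Nonempty := ⟨_, M', h1, h2, rfl⟩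
    obtain ⟨M, h3, h4, h5⟩ := Nat.sInf_mem hne
    have h6 : M.size = detSize strict ((Pool.Agent.TH705.LB.witM m).language strict) := h5
    rw [← h6]
    exact Pool.Agent.TH705.LB.lower m strict M h3 h4
  have h5 : n ^ 2 ≤ m ^ 2 * 2000000 := by
    have h6 : n ^ 2 ≤ (1330 * (m + 2)) ^ 2 := Nat.pow_le_pow_left h2 2
    nlinarith
  calc 2 ^ (n ^ 2) ≤ 2 ^ (m ^ 2 * 2000000) := Nat.pow_le_pow_right (by omega) h5
    _ = (2 ^ (m ^ 2)) ^ 2000000 := by rw [pow_mul]
    _ ≤ (detSize strict ((Pool.Agent.TH705.LB.witM m).language strict) ^ 2) ^ 2000000 :=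
        Nat.pow_le_pow_left h4 _
    _ ≤ (DK strict k n ^ 2) ^ 2000000 := Nat.pow_le_pow_left (Nat.pow_le_pow_left h3 2) _
    _ = DK strict k n ^ 4000000 := by rw [← pow_mul]

/-- A ranking with ranks at most `k` gives at most `k` guesses. -/
theorem few_of_ranked {A : Type} (strict : Prop) (k : ℕ) (M : LimAut A)
    (hM : Ranked strict k M) : FewGuesses strict k M := by
  obtain ⟨rk, h1, h2, h3⟩ := hM
  refine ⟨rk, h3, ?_⟩
  rintro w ⟨c, hc, hp, hf⟩
  exact ⟨c, (Pool.Agent.TH588.KG.after_rank h2 hc).mono k (h1 _), hp, hf⟩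

theorem upper_guesses {A : Type} [Finite A] (strict : Prop) (k : ℕ) (M : LimAut A)
    (hM : FewGuesses strict k M ∨ KMarking strict k M) : ∃ M' : LimAut A, M'.Deterministic ∧
      M'.language strict = M.language strict ∧
      M'.size ≤ 2 ^ (16 * (min (Nat.clog 2 (k + 1)) (M.size ^ 2) + 1) * M.size ^ 2) := by
  rcases hM with ⟨κ, h1, h2⟩ | ⟨g, h⟩
  · exact Pool.Agent.TH588.KG.upper_few M strict k κ h1 h2
  · exact Pool.Agent.TH588.KG.upper_sparse M strict k g h

theorem costsE_le (strict : Prop) (k n : ℕ) (s : ℕ) (hs : s ∈ costsE strict k n) :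
    s ≤ 2 ^ (16 * (min (Nat.clog 2 (k + 1)) (n ^ 2) + 1) * n ^ 2) := by
  obtain ⟨A, hA, M, hM, hn, rfl⟩ := hs
  obtain ⟨M', h1, h2, h3⟩ := upper_guesses strict k M hM
  have h4 : detSize strict (M.language strict) ≤ M'.size := Nat.sInf_le ⟨M', h1, h2, rfl⟩
  refine (h4.trans h3).trans ?_
  apply Nat.pow_le_pow_right (by omega)
  have h5 : M.size ^ 2 ≤ n ^ 2 := Nat.pow_le_pow_left hn 2
  exact Nat.mul_le_mul (Nat.mul_le_mul_left _ (by omega)) h5

theorem EK_le (strict : Prop) (k n : ℕ) :
    EK strict k n ≤ 2 ^ (16 * (min (Nat.clog 2 (k + 1)) (n ^ 2) + 1) * n ^ 2) := by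
  unfold EK
  rcases Set.eq_empty_or_nonempty (costsE strict k n) with h | h
  · rw [h]
    simp
  · exact csSup_le h (costsE_le strict k n)

theorem DK_le_EK (strict : Prop) (k n : ℕ) : DK strict k n ≤ EK strict k n := by
  unfold DK EK
  rcases Set.eq_empty_or_nonempty (costsK strict k n) with h | h
  · rw [h]
    simp
  · refine csSup_le_csSup ⟨_, costsE_le strict k n⟩ h ?_
    rintro s ⟨A, hA, M, hM, hn, rfl⟩
    exact ⟨A, hA, M, Or.inl (few_of_ranked strict k M hM), hn, rfl⟩

theorem EK_lower (strict : Prop) (k n : ℕ) (hk : 1 ≤ k) (hn : 66500 ≤ n) :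
    2 ^ (n ^ 2) ≤ EK strict k n ^ 4000000 :=
  (DK_lower strict k n hk hn).trans (Nat.pow_le_pow_left (DK_le_EK strict k n) _)

/-- The witness of `QuadraticExponent` marks one cell. -/
theorem marking_witM (strict : Prop) (m : ℕ) : KMarking strict 1 (Pool.Agent.TH705.LB.witM m) := by
  refine ⟨fun l => .vis l, ?_⟩
  rintro w ⟨c, hc, hp, hf⟩
  refine ⟨c, hc, hp, hf, ?_⟩
  obtain ⟨S, h1, h2⟩ := Pool.Agent.TH588.KG.allBut_of_rank
    (rk := fun q : (Pool.Agent.TH705.LB.witM m).Q => match q.1 with
      | .A => 0
      | _ => 1) (g := fun l => .vis l) (by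
    rintro ⟨t, i⟩ σ ⟨t', i'⟩ b d h
    have h' : Pool.Agent.TH705.LB.Tr t i.val σ t' i'.val b d := h
    generalize hi : i.val = x at h'
    generalize hi' : i'.val = x' at h'
    cases h' <;> simp) (by
    rintro ⟨t, i⟩ a ⟨t', i'⟩ b d h hr
    have h' : Pool.Agent.TH705.LB.Tr t i.val (.sym (.raw a)) t' i'.val b d := h
    generalize hi : i.val = x at h'
    generalize hi' : i'.val = x' at h'
    cases h' with
    | A_mark => exact absurd hr (by simp)
    | A_go => rfl
    | K_go => rfl
    | K_q => rfl
    | I_u => rfl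
    | I_bit => rfl
    | B_u => rfl
    | B_s => rfl) hc hp
  refine ⟨S, h1.trans ?_, h2⟩
  obtain ⟨t, i⟩ := c.state
  cases t <;> simp only <;> omega

/-- Machines with one guess and a large cost. -/
theorem lower_machine (strict : Prop) (n : ℕ) (hn : 66500 ≤ n) :
    ∃ (A : Type) (_ : Finite A) (M : LimAut A), M.size ≤ n ∧ Ranked strict 1 M ∧
      KMarking strict 1 M ∧ 2 ^ (n ^ 2) ≤ detSize strict (M.language strict) ^ 4000000 := by
  obtain ⟨m, hm, h1, h2⟩ : ∃ m, 49 ≤ m ∧ 1330 * (m + 1) ≤ n ∧ n ≤ 1330 * (m + 2) :=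
    ⟨n / 1330 - 1, by omega, by omega, by omega⟩
  refine ⟨_, inferInstance, Pool.Agent.TH705.LB.witM m,
    (Pool.Agent.TH705.LB.size_witM m).trans h1, ranked_witM strict m 1 le_rfl,
    marking_witM strict m, ?_⟩
  have h4 : 2 ^ (m ^ 2) ≤
      detSize strict ((Pool.Agent.TH705.LB.witM m).language strict) ^ 2 := by
    obtain ⟨M', h1, h2, -⟩ := upper (Pool.Agent.TH705.LB.witM m) strict
    have hne : {s | ∃ M : LimAut Pool.Agent.TH705.LB.Ltr, M.Deterministic ∧
        M.language strict = (Pool.Agent.TH705.LB.witM m).language strict ∧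
        M.size = s}.Nonempty := ⟨_, M', h1, h2, rfl⟩
    obtain ⟨M, h3, h4, h5⟩ := Nat.sInf_mem hne
    have h6 : M.size = detSize strict ((Pool.Agent.TH705.LB.witM m).language strict) := h5
    rw [← h6]
    exact Pool.Agent.TH705.LB.lower m strict M h3 h4
  have h5 : n ^ 2 ≤ m ^ 2 * 2000000 := by
    have h6 : n ^ 2 ≤ (1330 * (m + 2)) ^ 2 := Nat.pow_le_pow_left h2 2
    nlinarith
  calc 2 ^ (n ^ 2) ≤ 2 ^ (m ^ 2 * 2000000) := Nat.pow_le_pow_right (by omega) h5
    _ = (2 ^ (m ^ 2)) ^ 2000000 := by rw [pow_mul]
    _ ≤ (detSize strict ((Pool.Agent.TH705.LB.witM m).language strict) ^ 2) ^ 2000000 :=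
        Nat.pow_le_pow_left h4 _
    _ = detSize strict ((Pool.Agent.TH705.LB.witM m).language strict) ^ 4000000 := by
        rw [← pow_mul]

/-- The order of magnitude of `log E_k(n)`, for fixed `k ≥ 1`. -/
theorem log_theta (strict : Prop) (k : ℕ) (hk : 1 ≤ k) :
    (fun n : ℕ => Real.log (EK strict k n)) =Θ[atTop] fun n : ℕ => (n : ℝ) ^ 2 := by
  have hlog2 : 0 < Real.log 2 := Real.log_pos (by norm_num)
  constructor
  · refine Asymptotics.IsBigO.of_bound (16 * (k + 1) * Real.log 2) ?_
    filter_upwards with n
    rw [Real.norm_of_nonneg (Real.log_natCast_nonneg _), Real.norm_of_nonneg (by positivity)]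
    have h1 := EK_le strict k n
    rcases Nat.eq_zero_or_pos (EK strict k n) with h0 | h0
    · rw [h0]
      simp only [Nat.cast_zero, Real.log_zero]
      positivity
    have h5 : min (Nat.clog 2 (k + 1)) (n ^ 2) ≤ k := (min_le_left _ _).trans
      (Nat.clog_le_of_le_pow (Nat.lt_two_pow_self : k < 2 ^ k))
    have h1 := h1.trans (Nat.pow_le_pow_right (by omega) (Nat.mul_le_mul_right (n ^ 2)
      (Nat.mul_le_mul_left 16 (Nat.add_le_add_right h5 1))))
    have h2 : (EK strict k n : ℝ) ≤ (2 : ℝ) ^ (16 * (k + 1) * n ^ 2) := by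
      exact_mod_cast h1
    have h3 : Real.log (EK strict k n) ≤ Real.log ((2 : ℝ) ^ (16 * (k + 1) * n ^ 2)) :=
      Real.log_le_log (by exact_mod_cast h0) h2
    rw [Real.log_pow] at h3
    refine h3.trans ?_
    push_cast
    exact le_of_eq (by ring)
  · refine Asymptotics.IsBigO.of_bound (4000000 / Real.log 2) ?_
    filter_upwards [eventually_ge_atTop 66500] with n hn
    rw [Real.norm_of_nonneg (Real.log_natCast_nonneg _), Real.norm_of_nonneg (by positivity)]
    have h1 := EK_lower strict k n hk hn
    have h2 : (2 : ℝ) ^ (n ^ 2) ≤ (EK strict k n : ℝ) ^ 4000000 := by exact_mod_cast h1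
    have h3 : Real.log ((2 : ℝ) ^ (n ^ 2)) ≤ Real.log ((EK strict k n : ℝ) ^ 4000000) :=
      Real.log_le_log (by positivity) h2
    rw [Real.log_pow, Real.log_pow] at h3
    push_cast at h3
    rw [div_mul_eq_mul_div, le_div_iff₀ hlog2]
    exact h3

/-- A bound that holds for every number of ranks. -/
theorem log_uniform (strict : Prop) (k n : ℕ) (hn : 2 ≤ n) :
    Real.log (DK strict k n) ≤ 27 * (n : ℝ) ^ 2 * Real.log n := by
  have hlog2 : 0 < Real.log 2 := Real.log_pos (by norm_num)
  have hn0 : (0 : ℝ) < n := by exact_mod_cast (by omega : 0 < n)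
  have hlogn : Real.log 2 ≤ Real.log n := Real.log_le_log (by norm_num) (by exact_mod_cast hn)
  have h1 := DK_le strict k n
  rcases Nat.eq_zero_or_pos (DK strict k n) with h0 | h0
  · rw [h0]
    simp only [Nat.cast_zero, Real.log_zero]
    have : 0 < Real.log n := hlog2.trans_le hlogn
    positivity
  have h5 : Nat.clog 2 (min k n + 1) ≤ Nat.log 2 n + 1 :=
    Nat.clog_le_of_le_pow (by
      have := Nat.lt_pow_succ_log_self (b := 2) (by omega) n
      omega)
  have h1 := h1.trans (Nat.pow_le_pow_right (by omega) (Nat.mul_le_mul_right (n ^ 2)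
    (Nat.mul_le_mul_left 9 (Nat.add_le_add_right h5 1))))
  have h2 : (DK strict k n : ℝ) ≤ (2 : ℝ) ^ (9 * (Nat.log 2 n + 1 + 1) * n ^ 2) := by
    exact_mod_cast h1
  have h3 : Real.log (DK strict k n) ≤
      Real.log ((2 : ℝ) ^ (9 * (Nat.log 2 n + 1 + 1) * n ^ 2)) :=
    Real.log_le_log (by exact_mod_cast h0) h2
  rw [Real.log_pow] at h3
  refine h3.trans ?_
  have h6 : (Nat.log 2 n : ℝ) * Real.log 2 ≤ Real.log n := by
    rw [← Real.log_pow]
    refine Real.log_le_log (by positivity) ?_
    exact_mod_cast Nat.pow_log_le_self 2 (by omega : n ≠ 0)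
  push_cast
  have h7 : (Nat.log 2 n + 1 + 1 : ℝ) * Real.log 2 ≤ 3 * Real.log n := by nlinarith
  calc (9 * (Nat.log 2 n + 1 + 1 : ℝ) * (n : ℝ) ^ 2) * Real.log 2
      = 9 * (n : ℝ) ^ 2 * ((Nat.log 2 n + 1 + 1 : ℝ) * Real.log 2) := by ring
    _ ≤ 9 * (n : ℝ) ^ 2 * (3 * Real.log n) := mul_le_mul_of_nonneg_left h7 (by positivity)
    _ = 27 * (n : ℝ) ^ 2 * Real.log n := by ring

/-- **The cost of determinizing 1-limited automata that make boundedly many guesses is
`2 ^ Θ(n ^ 2)`.**  Two classes of 1-limited automata are considered.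

`FewGuesses strict k M`: the states are divided into classes such that, as long as `M` stays in a
class, it has no choice what to write, and every word of its language has an accepting computation
in which at most `k` moves change the class.

`KMarking strict k M`: for some function `g` from the input letters to the work symbols, every word
of the language has an accepting computation at the end of which all but at most `k` cells contain
the symbol that `g` gives for the input letter.

Let `c = ⌈log₂ (k + 1)⌉`.  Every automaton of size `n` of one of these classes has an equivalent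
deterministic 1-limited automaton of size at most `2 ^ (16 * (min c (n ^ 2) + 1) * n ^ 2)`, and so
the cost function `E_k(n)` for these automata has the same bound.  On the other hand, for every
`n ≥ 66500` there is an automaton of size at most `n` which belongs to both classes with `k = 1`
and whose equivalent deterministic 1-limited automata have sizes at least
`2 ^ (n ^ 2 / 4000000)`.  Hence `log E_k(n) = Θ(n ^ 2)` for every fixed `k ≥ 1`.

If the classes are numbers at most `k` and no move lowers the class (`Ranked`), then the automaton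
makes at most `k` guesses; for these automata the cost is at most `n ^ (27 * n ^ 2)`, for every `k`
and every `n ≥ 2`.  If the moves on input letters that keep the class write a symbol that is
determined by the class and the letter, then there is no choice what to write in a class.
Deterministic 1-limited automata are `Ranked` with `k = 0`.  All this holds for both readings
`strict` of the rule that visited cells are frozen. -/
theorem result (strict : Prop) :
    (∀ (A : Type) (_ : Finite A) (k : ℕ) (M : LimAut A),
      (FewGuesses strict k M ∨ KMarking strict k M) →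
      ∃ M' : LimAut A, M'.Deterministic ∧ M'.language strict = M.language strict ∧
        M'.size ≤ 2 ^ (16 * (min (Nat.clog 2 (k + 1)) (M.size ^ 2) + 1) * M.size ^ 2)) ∧
    (∀ n : ℕ, 66500 ≤ n → ∃ (A : Type) (_ : Finite A) (M : LimAut A), M.size ≤ n ∧
      Ranked strict 1 M ∧ KMarking strict 1 M ∧
      2 ^ (n ^ 2) ≤ detSize strict (M.language strict) ^ 4000000) ∧
    (∀ k n : ℕ,
      EK strict k n ≤ 2 ^ (16 * (min (Nat.clog 2 (k + 1)) (n ^ 2) + 1) * n ^ 2)) ∧
    (∀ k : ℕ, 1 ≤ k →
      (fun n : ℕ => Real.log (EK strict k n)) =Θ[atTop] fun n : ℕ => (n : ℝ) ^ 2) ∧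
    (∀ (A : Type) (k : ℕ) (M : LimAut A), Ranked strict k M → FewGuesses strict k M) ∧
    (∀ k n : ℕ, 2 ≤ n → Real.log (DK strict k n) ≤ 27 * (n : ℝ) ^ 2 * Real.log n) ∧
    (∀ (A : Type) (k : ℕ) (M : LimAut A) (κ : M.Q → ℕ) (g : ℕ → A → M.W),
      (∀ p a q b d, (q, b, d) ∈ M.δ p (.sym (M.inp a)) → κ q = κ p → b = g (κ p) a) →
      (∀ w ∈ M.language strict, ∃ c : Cfg M, After strict κ w k c ∧ c.pos = w.length + 2 ∧
        c.state ∈ M.F) → FewGuesses strict k M) ∧
    (∀ (A : Type) (M : LimAut A), M.Deterministic → Ranked strict 0 M) :=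
  ⟨fun _ _ k M hM => upper_guesses strict k M hM, lower_machine strict, EK_le strict,
    log_theta strict, fun _ k M => few_of_ranked strict k M, log_uniform strict,
    fun _ _ M κ g hg hf => ⟨κ, nochoice_of_letter strict M κ g hg, hf⟩,
    fun _ M hd => ranked_of_deterministic strict M hd⟩

end Pool.Agent.Results.MP_0036f5_lc.BoundedGuesses
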