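import Mathlib
import Pool.Agent.TH588.WD.Size
import Pool.Agent.Results.MP_0036f5_lc.BoundedGuesses

/-!
# 1-limited automata without choice what to write: quasi-polynomial determinization

The cost `D(n)` of determinizing 1-limited automata is exponential. Here the cost is bounded by
`n ^ O(log n)` for all 1-limited automata in which nondeterminism does not influence what is
written: two computations on the same input which are going to visit a cell for the first time,
with the same tape, write the same symbol. This includes the two-way nondeterministic finite
automata (nothing is rewritten), the always-marking automata and the deterministic 1-limited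
automata. On the other hand (`BoundedGuesses`) a single guess of a symbol in each computation makes
the cost `2 ^ Θ(n ^ 2)`.

Proof. The symbols written in the visited cells, the table `T` (for which pairs of states `p, q` is
there a computation which enters the visited part of the tape from the right in the state `p` and
leaves it in the state `q`) and the set `E` of the states in which a new cell is entered are
functions of the visited part of the input. The deterministic automaton divides the tape in blocks
of `s ^ 2 + s` cells, where `s` is the number of states, and writes one bit in each cell, so that a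
block holds the table and the set for the position where the block begins. Besides, each cell
receives the symbol that the given automaton writes in the cell on its left. Each of these
annotations is computed from the letters and the annotations of the last two blocks: it says whether
there is a path in a graph with `O(s ^ 5)` vertices (state, position in the block, number of visited
cells of the block), whose edges are read off from the block. The procedure of Savitch decides this
with `O(log ^ 2 s)` bits of memory, which are kept in the state.
-/

set_option autoImplicit false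

namespace Pool.Agent.Results.MP_0036f5_lc.NoWritingChoice

open Pool.Agent.H630R2.LA Pool.Agent.TH588.LQ Filter Relation
open Pool.Agent.Results.MP_0036f5_lc.BoundedGuesses (Ranked DK costsK DK_lower costs_le
  ranked_of_deterministic)

/-- `M` has *no choice what to write*: if two computations on the same input `w` are going to visit
the same cell, which contains a letter of `w`, for the first time, with the same tape, then all
their moves write the same symbol. -/
def NoChoice {A : Type} (strict : Prop) (M : LimAut A) : Prop :=
  ∀ (w : List A) (c c' : Cfg M),
    ReflTransGen (Step strict w.length) (init M w) c →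
    ReflTransGen (Step strict w.length) (init M w) c' →
    1 ≤ c.pos → c.pos ≤ w.length → c'.pos = c.pos → c.pos ∉ c.seen → c'.pos ∉ c'.seen →
    c'.tape = c.tape →
    ∀ q b d q' b' d', (q, b, d) ∈ M.δ c.state (c.tape c.pos) →
      (q', b', d') ∈ M.δ c'.state (c.tape c.pos) → b = b'

/-- The automata without choice are those with a ranking in which all ranks are `0`. -/
theorem noChoice_iff {A : Type} (strict : Prop) (M : LimAut A) :
    NoChoice strict M ↔ Ranked strict 0 M := by
  constructor
  · intro h
    exact ⟨fun _ => 0, fun _ => le_rfl, fun _ _ _ _ _ _ => le_rfl,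
      fun w c c' h1 h2 h3 h4 h5 h6 h7 h8 _ q b d q' b' d' h10 h11 _ _ =>
        h w c c' h1 h2 h3 h4 h5 h6 h7 h8 q b d q' b' d' h10 h11⟩
  · rintro ⟨rk, hk, hrk⟩ w c c' h1 h2 h3 h4 h5 h6 h7 h8 q b d q' b' d' h10 h11
    have h0 : ∀ p, rk p = 0 := fun p => Nat.le_zero.1 (hk p)
    exact hrk.nochoice w c c' h1 h2 h3 h4 h5 h6 h7 h8 (by rw [h0, h0]) q b d q' b' d' h10 h11
      (by rw [h0, h0]) (by rw [h0, h0])

theorem small_of_noChoice {A : Type} [Finite A] (strict : Prop) (M : LimAut A)
    (h : NoChoice strict M) : ∃ M' : LimAut A, M'.Deterministic ∧
      M'.language strict = M.language strict ∧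
      M'.size ≤ 2 ^ (170 * (Nat.log 2 M.size + 1) ^ 2) :=
  Pool.Agent.TH588.WD.exists_small_W M strict h

theorem noChoice_of_letterWriting {A : Type} (strict : Prop) (M : LimAut A)
    (h : LetterWriting M) : NoChoice strict M := by
  intro w c c' h1 h2 h3 h4 h5 h6 h7 h8 q b d q' b' d' h10 h11
  obtain ⟨m, hm', hseen, htape, -⟩ := forward w c h1
  have hlt : m < c.pos := by
    by_contra hcon
    exact h6 ((hseen c.pos h3).2 (by omega))
  obtain ⟨i, hi⟩ : ∃ i, c.pos = i + 1 := ⟨c.pos - 1, by omega⟩
  have hcell : c.tape c.pos = .sym (M.inp w[i]) := by
    rw [htape c.pos hlt, hi]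
    simp only [initTape, List.getElem?_eq_getElem (show i < w.length by omega)]
  rw [hcell] at h10 h11
  obtain ⟨y, hy⟩ := h w[i]
  have e1 : b = y := hy _ _ h10
  have e2 : b' = y := hy _ _ h11
  rw [e1, e2]

theorem DK_zero_le (strict : Prop) (n : ℕ) :
    DK strict 0 n ≤ 2 ^ (170 * (Nat.log 2 n + 1) ^ 2) := by
  unfold DK
  rcases Set.eq_empty_or_nonempty (costsK strict 0 n) with h | h
  · rw [h, csSup_empty]
    exact Nat.zero_le _
  · refine csSup_le h ?_
    rintro s ⟨A, hA, M, hL, hM, rfl⟩
    obtain ⟨M', h1, h2, h3⟩ := small_of_noChoice strict M ((noChoice_iff strict M).2 hL)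
    have h4 : detSize strict (M.language strict) ≤ M'.size := Nat.sInf_le ⟨M', h1, h2, rfl⟩
    refine (h4.trans h3).trans (Nat.pow_le_pow_right (by omega) (Nat.mul_le_mul_left _ ?_))
    exact Nat.pow_le_pow_left (Nat.add_le_add_right (Nat.log_mono_right hM) 1) 2

/-- Every power of the cost without guesses is eventually below the cost with one guess. -/
theorem gap_one (strict : Prop) (c : ℕ) :
    ∀ᶠ n : ℕ in atTop, DK strict 0 n ^ c < DK strict 1 n := by
  filter_upwards [log_growth (170 * c * 4000000), eventually_ge_atTop 66500] with n hn hn1
  have h1 := DK_lower strict 1 n le_rfl hn1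
  have h2 := DK_zero_le strict n
  by_contra hcon
  rw [not_lt] at hcon
  have h3 : DK strict 1 n ^ 4000000 ≤
      2 ^ (170 * (Nat.log 2 n + 1) ^ 2 * c * 4000000) := by
    calc DK strict 1 n ^ 4000000 ≤ (DK strict 0 n ^ c) ^ 4000000 :=
          Nat.pow_le_pow_left hcon _
      _ ≤ ((2 ^ (170 * (Nat.log 2 n + 1) ^ 2)) ^ c) ^ 4000000 :=
          Nat.pow_le_pow_left (Nat.pow_le_pow_left h2 _) _
      _ = 2 ^ (170 * (Nat.log 2 n + 1) ^ 2 * c * 4000000) := by
          rw [← pow_mul, ← pow_mul]
          congr 1
          ring
  have h4 : n ^ 2 ≤ 170 * (Nat.log 2 n + 1) ^ 2 * c * 4000000 :=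
    (Nat.pow_le_pow_iff_right (by norm_num)).1 (h1.trans h3)
  have h5 : 170 * (Nat.log 2 n + 1) ^ 2 * c * 4000000 =
      170 * c * 4000000 * (Nat.log 2 n + 1) ^ 2 := by
    ring
  nlinarith

/-- (1) Every 1-limited automaton of size `n` which has no choice what to write has an equivalent
deterministic 1-limited automaton of size at most `2 ^ (170 (log₂ n + 1) ^ 2)`. (2) These are the
automata that have a ranking with the single rank `0`, so `D_0(n) ≤ 2 ^ (170 (log₂ n + 1) ^ 2)` for
the cost function `D_0 = DK strict 0` of `BoundedGuesses`, and every power of `D_0` is eventually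
below `D_1`, the cost function for the automata that raise the rank at most once. (3) The
deterministic automata have no choice what to write, nor have the automata whose written symbols
are determined by the letters, in particular the two-way nondeterministic finite automata. (4) In
the second case the number of states and the number of work symbols are bounded in terms of the
number `s` of states, by `2 ^ (160 (log₂ s + 1) ^ 2)` and `3 |A| + 1`. All this holds for both
readings `strict` of the rule that visited cells are frozen. -/
theorem result (strict : Prop) :
    (∀ (A : Type) [Finite A] (M : LimAut A), NoChoice strict M → ∃ M' : LimAut A,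
      M'.Deterministic ∧ M'.language strict = M.language strict ∧
      M'.size ≤ 2 ^ (170 * (Nat.log 2 M.size + 1) ^ 2)) ∧
    (∀ (A : Type) (M : LimAut A), NoChoice strict M ↔ Ranked strict 0 M) ∧
    (∀ n : ℕ, DK strict 0 n ≤ 2 ^ (170 * (Nat.log 2 n + 1) ^ 2)) ∧
    (∀ c : ℕ, ∀ᶠ n : ℕ in atTop, DK strict 0 n ^ c < DK strict 1 n) ∧
    (∀ (A : Type) (M : LimAut A), M.Deterministic → NoChoice strict M) ∧
    (∀ (A : Type) (M : LimAut A), LetterWriting M → NoChoice strict M) ∧
    (∀ (A : Type) (M : LimAut A), NeverRewrites M → LetterWriting M) ∧
    (∀ (A : Type) [Finite A] (M : LimAut A), LetterWriting M → ∃ M' : LimAut A,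
      M'.Deterministic ∧ M'.language strict = M.language strict ∧
      Nat.card M'.Q ≤ 2 ^ (160 * (Nat.log 2 (Nat.card M.Q) + 1) ^ 2) ∧
      Nat.card M'.W = 3 * Nat.card A + 1 ∧
      M'.size ≤ 2 ^ (160 * (Nat.log 2 M.size + 1) ^ 2)) :=
  ⟨fun _ _ M h => small_of_noChoice strict M h, fun _ M => noChoice_iff strict M,
    DK_zero_le strict, gap_one strict,
    fun _ M h => (noChoice_iff strict M).2 (ranked_of_deterministic strict M h),
    fun _ M h => noChoice_of_letterWriting strict M h, fun _ _ h => h.letterWriting,
    fun _ _ M h => small_of_letterWriting M strict h⟩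

end Pool.Agent.Results.MP_0036f5_lc.NoWritingChoice
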