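import Mathlib
import Pool.Agent.TH705.LB.Lower

set_option autoImplicit false

namespace Pool.Agent.Results.MP_0036f5_lc.QuadraticExponent

open Pool.Agent.H630R2.LA Pool.Agent.TH705.LB

theorem detSize_le (strict : Prop) {A : Type} [Finite A] (M : LimAut A) :
    detSize strict (M.language strict) ≤ 2 ^ ((M.size + 2) ^ 4) := by
  obtain ⟨M', h1, h2, h3⟩ := upper M strict
  have h4 : detSize strict (M.language strict) ≤ M'.size := Nat.sInf_le ⟨M', h1, h2, rfl⟩
  exact h4.trans h3

theorem bdd (strict : Prop) (n : ℕ) : BddAbove (costs strict n) := by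
  refine ⟨2 ^ ((n + 2) ^ 4), ?_⟩
  rintro s ⟨A, hA, M, hM, rfl⟩
  refine (detSize_le strict M).trans ?_
  apply Nat.pow_le_pow_right (by omega)
  exact Nat.pow_le_pow_left (by omega) 4

theorem le_detSize (strict : Prop) (m : ℕ) :
    2 ^ (m ^ 2) ≤ detSize strict ((witM m).language strict) ^ 2 := by
  obtain ⟨M', h1, h2, -⟩ := upper (witM m) strict
  have hne : {s | ∃ M : LimAut Ltr, M.Deterministic ∧
      M.language strict = (witM m).language strict ∧ M.size = s}.Nonempty := ⟨_, M', h1, h2, rfl⟩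
  obtain ⟨M, h3, h4, h5⟩ := Nat.sInf_mem hne
  have h6 : M.size = detSize strict ((witM m).language strict) := h5
  rw [← h6]
  exact lower m strict M h3 h4

theorem D_lower (strict : Prop) (n : ℕ) (hn : 66500 ≤ n) :
    2 ^ (n ^ 2) ≤ D strict n ^ 4000000 := by
  obtain ⟨m, hm, h1, h2⟩ : ∃ m, 49 ≤ m ∧ 1330 * (m + 1) ≤ n ∧ n ≤ 1330 * (m + 2) :=
    ⟨n / 1330 - 1, by omega, by omega, by omega⟩
  have hmem : detSize strict ((witM m).language strict) ∈ costs strict n :=
    ⟨Ltr, inferInstance, witM m, (size_witM m).trans h1, rfl⟩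
  have h3 : detSize strict ((witM m).language strict) ≤ D strict n :=
    le_csSup (bdd strict n) hmem
  have h4 := le_detSize strict m
  have h5 : n ^ 2 ≤ m ^ 2 * 2000000 := by
    have h6 : n ^ 2 ≤ (1330 * (m + 2)) ^ 2 := Nat.pow_le_pow_left h2 2
    nlinarith
  calc 2 ^ (n ^ 2) ≤ 2 ^ (m ^ 2 * 2000000) := Nat.pow_le_pow_right (by omega) h5
    _ = (2 ^ (m ^ 2)) ^ 2000000 := by rw [pow_mul]
    _ ≤ (detSize strict ((witM m).language strict) ^ 2) ^ 2000000 := Nat.pow_le_pow_left h4 _
    _ ≤ (D strict n ^ 2) ^ 2000000 := Nat.pow_le_pow_left (Nat.pow_le_pow_left h3 2) _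
    _ = D strict n ^ 4000000 := by rw [← pow_mul]

theorem superexp (strict : Prop) (c : ℕ) : ∀ᶠ n in Filter.atTop, 2 ^ (c * n) < D strict n := by
  filter_upwards [Filter.eventually_ge_atTop (66500 + 4000000 * c)] with n hn
  have h1 := D_lower strict n (by omega)
  by_contra hcon
  have h2 : D strict n ≤ 2 ^ (c * n) := not_lt.1 hcon
  have h3 : 2 ^ (n ^ 2) ≤ 2 ^ (c * n * 4000000) := by
    rw [pow_mul 2 (c * n)]
    exact h1.trans (Nat.pow_le_pow_left h2 _)
  have h4 : n ^ 2 ≤ c * n * 4000000 := (Nat.pow_le_pow_iff_right (by norm_num)).1 h3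
  have h5 : n * n ≤ (4000000 * c) * n := by nlinarith
  have h6 : n ≤ 4000000 * c := Nat.le_of_mul_le_mul_right h5 (by omega)
  omega

/-- The cost `D(n)` of determinizing 1-limited automata is at least `2 ^ (n ^ 2 / 4000000)`, so it
is not of the form `2 ^ O(n)`. For every `m` there is a 1-limited automaton over a fixed alphabet
with five letters, of size at most `1330 * (m + 1)`, all of whose equivalent deterministic
1-limited automata (and so all of whose equivalent two-way deterministic finite automata) have a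
number `q` of states with `2 ^ (m ^ 2) ≤ q * q + q`; `2 ^ (n ^ 2) ≤ D(n) ^ 4000000` for every
`n ≥ 66500`; and for every constant `c`, `D(n) > 2 ^ (c * n)` for all large `n`. This holds for
both readings `strict` of the rule that visited cells are frozen. -/
theorem result (strict : Prop) :
    (∀ m : ℕ, ∃ M : LimAut Ltr, M.size ≤ 1330 * (m + 1) ∧
      ∀ M' : LimAut Ltr, M'.Deterministic → M'.language strict = M.language strict →
        2 ^ (m ^ 2) ≤ Nat.card M'.Q * Nat.card M'.Q + Nat.card M'.Q) ∧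
    (∀ n : ℕ, 66500 ≤ n → 2 ^ (n ^ 2) ≤ D strict n ^ 4000000) ∧
    (∀ c : ℕ, ∀ᶠ n in Filter.atTop, 2 ^ (c * n) < D strict n) :=
  ⟨fun m => ⟨witM m, size_witM m, fun M' h1 h2 => lowerQ m strict M' h1 h2⟩,
    fun n hn => D_lower strict n hn, fun c => superexp strict c⟩

end Pool.Agent.Results.MP_0036f5_lc.QuadraticExponent
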